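import Pool.Agent.P.MP_d6faff_lc.Dim.Join

/-! Presentations of the joined graph and their parts. -/

set_option autoImplicit false

namespace Pool.Agent.P.MP_d6faff_lc

open Relation

variable {k : ℕ} {D : Set ℕ} {a : ℕ → ℕ → Prop} {ε ε' : Fin k → Bool} {ψ ψ' : ℕ → Y k}

/-- `ψ` identifies the relation `a` on `D` with the joined graph of type `ε` -/
structure PD (D : Set ℕ) (a : ℕ → ℕ → Prop) (ε : Fin k → Bool) (ψ : ℕ → Y k) : Prop where
  inj : Set.InjOn ψ D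
  mem : ∀ n ∈ D, ψ n ∈ DD ε
  surj : ∀ y ∈ DD ε, ∃ n ∈ D, ψ n = y
  adj : ∀ m n, a m n ↔ m ∈ D ∧ n ∈ D ∧ adjV (ψ m) (ψ n) = true

/-- the graph of `ψ` on `D` is enumerable -/
def Gr (D : Set ℕ) (ψ : ℕ → Y k) : Prop := Sig fun p : ℕ × Y k => p.1 ∈ D ∧ ψ p.1 = p.2

theorem PD.move (h : PD D a ε ψ) (τ : Y k ≃ Y k) (h1 : ∀ y w, adjV (τ y) (τ w) = adjV y w)
    (h2 : ∀ y, τ y ∈ DD ε' ↔ y ∈ DD ε) : PD D a ε' fun n => τ (ψ n) := by
  refine ⟨fun m hm n hn e => h.inj hm hn (τ.injective e), fun n hn => (h2 _).2 (h.mem n hn),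
    fun y hy => ?_, fun m n => by rw [h1, h.adj]⟩
  obtain ⟨n, hn, e⟩ := h.surj (τ.symm y) ((h2 _).1 (by simpa using hy))
  exact ⟨n, hn, by rw [e, Equiv.apply_symm_apply]⟩

theorem PD.deg (h : PD D a ε ψ) {n : ℕ} (hn : n ∈ D) :
    {m | a n m}.encard = (NB ε (ψ n)).encard := by
  rw [← (h.inj.mono (fun m hm => ((h.adj _ _).1 hm).2.1 : {m | a n m} ⊆ D)).encard_image]
  congr 1
  ext y
  constructor
  · rintro ⟨m, hm, rfl⟩
    obtain ⟨-, h1, h2⟩ := (h.adj _ _).1 hm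
    exact ⟨h.mem m h1, h2⟩
  · rintro ⟨h1, h2⟩
    obtain ⟨m, hm, rfl⟩ := h.surj y h1
    exact ⟨m, (h.adj _ _).2 ⟨hn, hm, h2⟩, rfl⟩

theorem PD.deg_le (h : PD D a ε ψ) (hk : 1 ≤ k) {n : ℕ} (hn : n ∈ D) :
    {m | a n m}.encard ≤ (7 * k : ℕ) := by
  rw [h.deg hn]
  rcases ψ n with ⟨⟨⟩⟩ | ⟨i, x⟩
  · exact (deg_ctr ε).le
  · exact (deg_vx ε i x).trans (by exact_mod_cast (by omega : 6 ≤ 7 * k))

theorem PD.ctr_eq (h : PD D a ε ψ) (h' : PD D a ε' ψ') (hk : 1 ≤ k) {c : ℕ} (hc : c ∈ D)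
    (e : ψ c = ctr) : ψ' c = ctr := by
  have h1 := (h.deg hc).symm.trans (h'.deg hc)
  rw [e, deg_ctr] at h1
  rcases hy : ψ' c with ⟨⟨⟩⟩ | ⟨i, x⟩
  · rfl
  · rw [hy] at h1
    have h2 := h1.trans_le (deg_vx ε' i x)
    have : 7 * k ≤ 6 := by exact_mod_cast h2
    omega

/-- the `i`-th part -/
def Pt (D : Set ℕ) (ψ : ℕ → Y k) (i : Fin k) : Set ℕ := {n | n ∈ D ∧ ∃ x, ψ n = vx i x}

theorem PD.part (h : PD D a ε ψ) {c r : ℕ} (hc : c ∈ D) (e : ψ c = ctr) {i : Fin k}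
    (hr : r ∈ Pt D ψ i) (n : ℕ) :
    ReflTransGen (fun m n => a m n ∧ n ≠ c) r n ↔ n ∈ Pt D ψ i := by
  constructor
  · intro H
    induction H with
    | refl => exact hr
    | @tail m n _ hmn ih =>
      obtain ⟨-, x, hx⟩ := ih
      obtain ⟨-, h1, h2⟩ := (h.adj _ _).1 hmn.1
      refine ⟨h1, ?_⟩
      rcases hy : ψ n with ⟨⟨⟩⟩ | ⟨j, y⟩
      · exact absurd (h.inj h1 hc (hy.trans e.symm)) hmn.2
      · rw [hx, hy, adjV_vv] at h2
        exact ⟨y, by rw [h2.1]⟩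
  · obtain ⟨G, φ, -, -, hG⟩ := exists_pres (ε i)
    have hx : ∀ n ∈ Pt D ψ i, ∃ s, ψ n = vx i (φ s) := by
      rintro n ⟨hn, x, hx⟩
      obtain ⟨s, rfl⟩ := hG.surj (x := x) (by simpa [hx] using h.mem n hn)
      exact ⟨s, hx⟩
    intro hn
    obtain ⟨s, hs⟩ := hx r hr
    obtain ⟨t, ht⟩ := hx n hn
    have H := (G.reachable_iff_reflTransGen s t).1 ((hG.connected (down_LL _)).preconnected s t)
    have hn' := hn.1
    clear hn
    induction H generalizing n with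
    | refl => rw [h.inj hn' hr.1 (ht.trans hs.symm)]
    | @tail u t _ hut ih =>
      obtain ⟨m, hm, em⟩ := h.surj (vx i (φ u)) (hG.mem u)
      refine (ih m em hm).tail ⟨(h.adj _ _).2 ⟨hm, hn', ?_⟩, fun hnc => ?_⟩
      · rw [em, ht, adjV_vv]
        exact ⟨rfl, (hG.adj _ _).1 hut⟩
      · rw [hnc, e] at ht
        exact absurd ht (by simp)

theorem PD.part_inf (h : PD D a ε ψ) (i : Fin k) : (Pt D ψ i).Infinite := by
  refine Set.Infinite.of_image (fun n => xo (ψ n)) ((infinite_dom (LL (ε i))).mono fun x hx => ?_)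
  obtain ⟨n, hn, e⟩ := h.surj (vx i x) hx
  exact ⟨n, ⟨hn, x, e⟩, by simp [e, xo]⟩

theorem PD.vx_xo {i : Fin k} {n : ℕ} (hn : n ∈ Pt D ψ i) : ψ n = vx i (xo (ψ n)) := by
  obtain ⟨-, x, hx⟩ := hn
  rw [hx]
  rfl

theorem PD.pres (h : PD D a ε ψ) {i : Fin k} {e : ℕ → ℕ} (he : Function.Injective e)
    (hr : Set.range e = Pt D ψ i) {K : SimpleGraph ℕ} (hK : ∀ m n, K.Adj m n ↔ a (e m) (e n)) :
    Pres K (Dom (LL (ε i))) fun n => xo (ψ (e n)) := by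
  have hm : ∀ n, e n ∈ Pt D ψ i := fun n => hr ▸ Set.mem_range_self n
  refine ⟨fun m n hmn => he (h.inj (hm m).1 (hm n).1 ?_), ?_, fun m n => ?_⟩
  · rw [PD.vx_xo (hm m), PD.vx_xo (hm n)]
    exact congrArg _ hmn
  · ext x
    constructor
    · rintro ⟨n, rfl⟩
      have := h.mem _ (hm n).1
      rwa [PD.vx_xo (hm n)] at this
    · intro hx
      obtain ⟨n, hn, en⟩ := h.surj (vx i x) hx
      obtain ⟨m, rfl⟩ : n ∈ Set.range e := hr ▸ ⟨hn, x, en⟩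
      exact ⟨m, by simp [en, xo]⟩
  · rw [hK, h.adj, PD.vx_xo (hm m), PD.vx_xo (hm n), adjV_vv]
    simp [(hm m).1, (hm n).1, xo]

theorem PD.graph (h : PD D a ε ψ) (e : ℕ → ℕ) :
    ∃ K : SimpleGraph ℕ, ∀ m n, K.Adj m n ↔ a (e m) (e n) :=
  ⟨⟨fun m n => a (e m) (e n), ⟨fun m n H => by
      obtain ⟨h1, h2, h3⟩ := (h.adj _ _).1 H
      exact (h.adj _ _).2 ⟨h2, h1, (VV k).adj_symm h3⟩⟩,
    ⟨fun m H => (VV k).irrefl ((h.adj _ _).1 H).2.2⟩⟩, fun _ _ => Iff.rfl⟩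

theorem Gr.part (h : Gr D ψ) (i : Fin k) : Sig fun n => n ∈ Pt D ψ i :=
  (Sig.ex (p := fun w : ℕ × X => w.1 ∈ D ∧ ψ w.1 = vx i w.2)
    (h.comp (f := fun w : ℕ × X => (w.1, vx i w.2)) (by fun_prop))).of_eq fun n => by
    simp only [Pt, Set.mem_ofPred_eq, exists_and_left]

theorem Gr.comp_xo (h : Gr D ψ) {i : Fin k} {e : ℕ → ℕ} (he : Computable e)
    (hr : Set.range e = Pt D ψ i) : Computable fun n => xo (ψ (e n)) := by
  refine computable_of_graph ((h.comp (f := fun w : ℕ × X => (e w.1, vx i w.2))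
    (by fun_prop)).of_eq fun w => ?_)
  have hm : e w.1 ∈ Pt D ψ i := hr ▸ Set.mem_range_self _
  dsimp only
  rw [PD.vx_xo hm]
  simp [hm.1, xo]

/-- the number of parts of the second kind -/
def cnt (ε : Fin k → Bool) : ℕ := (Finset.univ.filter fun i => ε i = true).card

theorem PD.cnt_eq (h : PD D a ε ψ) (h' : PD D a ε' ψ') (hk : 1 ≤ k) (g : Gr D ψ) (g' : Gr D ψ') :
    cnt ε = cnt ε' := by
  obtain ⟨c, hc, e⟩ := h.surj ctr ctr_mem
  have e' := h.ctr_eq h' hk hc e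
  have : ∀ i, ∃ j, Pt D ψ i = Pt D ψ' j := fun i => by
    obtain ⟨r, hr⟩ := (h.part_inf i).nonempty
    rcases hy : ψ' r with ⟨⟨⟩⟩ | ⟨j, y⟩
    · obtain ⟨h1, x, hx⟩ := hr
      rw [h'.inj h1 hc (hy.trans e'.symm), e] at hx
      exact absurd hx (by simp)
    · exact ⟨j, Set.ext fun n => by rw [← h.part hc e hr, h'.part hc e' ⟨hr.1, y, hy⟩]⟩
  choose π hπ using this
  have inj : Function.Injective π := fun i j hij => by
    obtain ⟨r, hr⟩ := (h.part_inf i).nonempty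
    have hr' : r ∈ Pt D ψ j := by rwa [hπ, ← hij, ← hπ]
    have := (PD.vx_xo hr).symm.trans (PD.vx_xo hr')
    simpa using this
  have key : ∀ i, ε i = ε' (π i) := fun i => by
    obtain ⟨f, f1, f2, f3⟩ := (g.part i).enum (h.part_inf i)
    obtain ⟨K, hK⟩ := h.graph f
    have p := h.pres f2 f3 hK
    have p' := h'.pres f2 (f3.trans (hπ i)) hK
    have q := g.comp_xo f1 f3
    have q' := g'.comp_xo f1 (f3.trans (hπ i))
    cases h1 : ε i <;> cases h2 : ε' (π i) <;> rw [h1] at p <;> rw [h2] at p'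
    · exact (not_both p p' q q').elim
    · exact (not_both p' p q' q).elim
  exact Finset.card_bijective π (Finite.injective_iff_bijective.1 inj) fun i => by simp [key i]

theorem PD.normal (h : PD D a (fun _ => false) ψ)
    (ha : ComputablePred fun p : ℕ × ℕ => a p.1 p.2) :
    ∃ (ε : Fin k → Bool) (ψ' : ℕ → Y k), PD D a ε ψ' ∧ Gr D ψ' := by
  classical
  obtain ⟨c, hc, ec⟩ := h.surj ctr ctr_mem
  have hS : Sig fun p : ℕ × ℕ => a p.1 p.2 ∧ p.2 ≠ c :=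
    (Sig.ofPred ha).and ((Sig.ofBool (f := fun p : ℕ × ℕ => !(decide (p.2 = c)))
      (by fun_prop)).of_eq fun p => by simp)
  have : ∀ i : Fin k, ∃ (e : ℕ → ℕ) (K : SimpleGraph ℕ) (b : Bool) (χ : ℕ → X), Computable e ∧
      Function.Injective e ∧ Set.range e = Pt D ψ i ∧ (∀ m n, K.Adj m n ↔ a (e m) (e n)) ∧
      Computable χ ∧ Pres K (Dom (LL b)) χ := fun i => by
    obtain ⟨r, hr⟩ := (h.part_inf i).nonempty
    obtain ⟨f, f1, f2, f3⟩ := ((hS.rtg r).of_eq (h.part hc ec hr)).enum (h.part_inf i)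
    obtain ⟨K, hK⟩ := h.graph f
    obtain ⟨q, hq, eq⟩ := ComputablePred.computable_iff.1 ha
    obtain ⟨b, χ, h1, h2⟩ := pres_computable (h.pres f2 f3 hK)
      (ComputablePred.computable_iff.2 ⟨fun p => q (f p.1, f p.2), by fun_prop, by
        funext p
        rw [hK]
        exact congrFun eq (f p.1, f p.2)⟩)
    exact ⟨f, K, b, χ, f1, f2, f3, hK, h1, h2⟩
  choose e K ε χ e1 e2 e3 hK c1 c2 using this
  have hm : ∀ i n, e i n ∈ Pt D ψ i := fun i n => e3 i ▸ Set.mem_range_self n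
  have hij : ∀ i j m n, e i m = e j n → i = j := fun i j m n H => by
    have := (PD.vx_xo (hm i m)).symm.trans ((congrArg ψ H).trans (PD.vx_xo (hm j n)))
    simp only [Sum.inr.injEq, Prod.mk.injEq] at this
    exact this.1
  have hcn : ∀ i m, e i m ≠ c := fun i m H => by
    have := PD.vx_xo (hm i m)
    rw [H, ec] at this
    exact absurd this (by simp)
  have hD : ∀ n ∈ D, n = c ∨ ∃ i m, n = e i m := fun n hn => by
    rcases hy : ψ n with ⟨⟨⟩⟩ | ⟨i, x⟩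
    · exact Or.inl (h.inj hn hc (hy.trans ec.symm))
    · obtain ⟨m, rfl⟩ : n ∈ Set.range (e i) := e3 i ▸ ⟨hn, x, hy⟩
      exact Or.inr ⟨i, m, rfl⟩
  obtain ⟨ψ', p0, p1⟩ : ∃ ψ' : ℕ → Y k, ψ' c = ctr ∧ ∀ i m, ψ' (e i m) = vx i (χ i m) := by
    refine ⟨fun n => if H : ∃ p : Fin k × ℕ, e p.1 p.2 = n then
      vx H.choose.1 (χ H.choose.1 H.choose.2) else ctr, dif_neg fun ⟨p, hp⟩ => hcn _ _ hp,
      fun i m => ?_⟩
    have H : ∃ p : Fin k × ℕ, e p.1 p.2 = e i m := ⟨(i, m), rfl⟩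
    dsimp only
    rw [dif_pos H]
    have := H.choose_spec
    generalize H.choose = p at this
    obtain ⟨j, n⟩ := p
    obtain rfl : j = i := hij _ _ _ _ this
    rw [e2 j this]
  have hst : ∀ i m, adjV (ψ' c) (ψ' (e i m)) = true ↔ adjV (ψ c) (ψ (e i m)) = true :=
    fun i m => by
      rw [p0, p1, ec, PD.vx_xo (hm i m), adjV_cv, adjV_cv]
      exact (c2 i).st_eq (h.pres (e2 i) (e3 i) (hK i)) m
  refine ⟨ε, ψ', ⟨fun m hm' n hn H => ?_, fun n hn => ?_, ?_, fun m n => ?_⟩, ?_⟩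
  · rcases hD m hm' with rfl | ⟨i, m, rfl⟩ <;> rcases hD n hn with rfl | ⟨j, n, rfl⟩
    · rfl
    · simp [p0, p1] at H
    · simp [p0, p1] at H
    · simp only [p1, Sum.inr.injEq, Prod.mk.injEq] at H
      obtain ⟨rfl, H⟩ := H
      rw [(c2 i).inj H]
  · rcases hD n hn with rfl | ⟨j, n, rfl⟩
    · rw [p0]
      trivial
    · rw [p1]
      exact (c2 j).mem n
  · rintro (⟨⟨⟩⟩ | ⟨i, x⟩) hy
    · exact ⟨c, hc, p0⟩
    · obtain ⟨m, rfl⟩ := (c2 i).surj hy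
      exact ⟨_, (hm i m).1, p1 i m⟩
  · rw [h.adj]
    refine and_congr_right fun hm' => and_congr_right fun hn => ?_
    rcases hD m hm' with rfl | ⟨i, m, rfl⟩ <;> rcases hD n hn with rfl | ⟨j, n, rfl⟩
    · rw [p0, ec]
    · exact (hst j n).symm
    · exact (VV k).adj_comm _ _ |>.trans ((hst i m).symm.trans ((VV k).adj_comm _ _))
    · rw [p1, p1, PD.vx_xo (hm i m), PD.vx_xo (hm j n), adjV_vv, adjV_vv]
      refine and_congr_right fun H => ?_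
      subst H
      exact ((h.pres (e2 i) (e3 i) (hK i)).adj m n).symm.trans ((c2 i).adj m n)
  · have s1 : Sig fun p : ℕ × Y k => p.1 = c ∧ p.2 = ctr :=
      (Sig.ofDec (by fun_prop)).and (Sig.ofDec (by fun_prop))
    have s2 : ∀ i, Sig fun p : ℕ × Y k => ∃ m, p.1 = e i m ∧ p.2 = vx i (χ i m) := fun i => by
      have := e1 i
      have := c1 i
      exact Sig.ex (p := fun w : (ℕ × Y k) × ℕ => w.1.1 = e i w.2 ∧ w.1.2 = vx i (χ i w.2))
        ((Sig.ofDec (by fun_prop)).and (Sig.ofDec (by fun_prop)))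
    refine (s1.or (Sig.exFin s2)).of_eq fun ⟨n, y⟩ => ⟨?_, ?_⟩
    · rintro (⟨rfl, rfl⟩ | ⟨i, m, rfl, rfl⟩)
      · exact ⟨hc, p0⟩
      · exact ⟨(hm i m).1, p1 i m⟩
    · rintro ⟨hn, hy⟩
      obtain rfl : ψ' n = y := hy
      rcases hD n hn with rfl | ⟨j, m, rfl⟩
      · exact Or.inl ⟨rfl, p0⟩
      · exact Or.inr ⟨j, m, rfl, p1 j m⟩

end Pool.Agent.P.MP_d6faff_lc
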