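import Pool.Agent.P.MP_d6faff_lc.Dim.Comp

/-! Graphs on computable sets of naturals that are copies of the joined graph. -/

set_option autoImplicit false

namespace Pool.Agent.P.MP_d6faff_lc

open Relation

variable {k : ℕ} {D D' : Set ℕ} {a : ℕ → ℕ → Prop} {ε ε' : Fin k → Bool} {ψ ψ' : ℕ → Y k}

theorem PD.perm (h : PD D a ε ψ) (g : Gr D ψ) (hc : cnt ε = cnt ε') :
    ∃ ψ', PD D a ε' ψ' ∧ Gr D ψ' := by
  obtain ⟨σ, hσ⟩ := Equiv.Perm.exists_map_finset_eq _ _ hc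
  have key : ∀ i, ε' (σ i) = ε i := fun i => by
    have := Finset.mem_map' σ.toEmbedding (a := i) (s := Finset.univ.filter fun i => ε i = true)
    rw [hσ] at this
    simp only [Finset.mem_filter, Finset.mem_univ, true_and, Equiv.coe_toEmbedding] at this
    exact Bool.eq_iff_iff.2 this
  let τ : Y k ≃ Y k := (Equiv.refl Unit).sumCongr (σ.prodCongr (Equiv.refl X))
  have t0 : τ ctr = ctr := rfl
  have t1 : ∀ i x, τ (vx i x) = vx (σ i) x := fun _ _ => rfl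
  refine ⟨_, h.move τ ?_ ?_, ?_⟩
  · rintro (⟨⟨⟩⟩ | ⟨i, x⟩) (⟨⟨⟩⟩ | ⟨j, y⟩)
    · rfl
    · rfl
    · rfl
    · rw [Bool.eq_iff_iff, t1, t1, adjV_vv, adjV_vv, σ.apply_eq_iff_eq]
  · rintro (⟨⟨⟩⟩ | ⟨i, x⟩)
    · rfl
    · rw [t1, vx_mem, vx_mem, key]
  · have hs : Primrec σ.symm := Primrec.dom_finite _
    have ht : Primrec fun y : Y k =>
        (Sum.elim (fun u => Sum.inl u) (fun p => vx (σ.symm p.1) p.2) y : Y k) := by fun_prop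
    have ht' : Computable τ.symm := ht.to_comp.of_eq (by rintro (⟨⟨⟩⟩ | ⟨i, x⟩) <;> rfl)
    exact (g.comp (f := fun p : ℕ × Y k => (p.1, τ.symm p.2)) (by fun_prop)).of_eq fun p => by
      simp only [Equiv.eq_symm_apply]

theorem st_tw (x : Site → Bool) (v : X) : st (tw x v) = st v := by
  rcases v with ⟨σ, b, m⟩ | ⟨σ, i, j⟩ <;> rfl

theorem PD.untwist (h : PD D a ε ψ) : ∃ ψ' : ℕ → Y k, PD D a (fun _ => false) ψ' := by
  obtain ⟨x, x1, x2, x3⟩ := exists_odd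
  let z : Fin k → Site → Bool := fun i σ => ε i && x σ
  have hz : ∀ i, IsG (z i) := fun i σ => by
    simp only [z]
    rw [x1 σ]
    cases ε i <;> simp
  let t : Y k → Y k := Sum.map id fun p => (p.1, tw (z p.1) p.2)
  have ht : Function.Involutive t := by
    rintro (⟨⟨⟩⟩ | ⟨i, v⟩)
    · rfl
    · simp [t, tw_tw]
  have t1 : ∀ i v, ht.toPerm t (vx i v) = vx i (tw (z i) v) := fun _ _ => rfl
  refine ⟨_, h.move (ht.toPerm t) ?_ ?_⟩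
  · rintro (⟨⟨⟩⟩ | ⟨i, v⟩) (⟨⟨⟩⟩ | ⟨j, w⟩)
    · rfl
    · rw [Bool.eq_iff_iff, t1]
      exact adjV_cv.trans (by rw [st_tw, adjV_cv])
    · rw [Bool.eq_iff_iff, t1]
      exact adjV_vc.trans (by rw [st_tw, adjV_vc])
    · rw [Bool.eq_iff_iff, t1, t1, adjV_vv, adjV_vv]
      refine and_congr_right fun H => ?_
      subst H
      exact tw_adj (hz i)
  · rintro (⟨⟨⟩⟩ | ⟨i, ⟨σ, b, m⟩ | ⟨σ, i', j⟩⟩)
    · rfl
    · have := LL_twist (y := z i) (fun σ hσ => x3 σ (Bool.and_eq_true_iff.1 hσ).2) false σ b m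
      rw [show xor false (z i []) = ε i by simp [z, x2]] at this
      exact this.symm
    · rfl

/-- the edge relation of a graph on a set of naturals -/
def rel {D : Set ℕ} (G : SimpleGraph D) (m n : ℕ) : Prop :=
  ∃ (h1 : m ∈ D) (h2 : n ∈ D), G.Adj ⟨m, h1⟩ ⟨n, h2⟩

theorem rel_iff {G : SimpleGraph D} {x y : D} : rel G x y ↔ G.Adj x y :=
  ⟨fun ⟨_, _, h⟩ => h, fun h => ⟨x.2, y.2, h⟩⟩

theorem PD.adj' {G : SimpleGraph D} (h : PD D (rel G) ε ψ) (x y : D) :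
    G.Adj x y ↔ adjV (ψ x) (ψ y) = true := by
  rw [← rel_iff, h.adj]
  simp

theorem exists_PD (ε : Fin k → Bool) (hk : 1 ≤ k) :
    ∃ (G : SimpleGraph (Set.univ : Set ℕ)) (ψ : ℕ → Y k),
      ComputablePred (fun p : ℕ × ℕ => rel G p.1 p.2) ∧ PD Set.univ (rel G) ε ψ ∧
      Gr Set.univ ψ := by
  have : Inhabited (Y k) := ⟨ctr⟩
  have hi : (DD ε).Infinite := Set.infinite_of_injective_forall_mem
    (f := fun σ : Site => vx (⟨0, hk⟩ : Fin k) (C σ false false))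
    (fun σ τ h => by simpa using h) (fun _ => trivial)
  obtain ⟨f, h1, h2, h3⟩ := (sig_DD ε).enum hi
  have e : ∀ m n, rel ((VV k).comap fun n : (Set.univ : Set ℕ) => f n) m n ↔
      adjV (f m) (f n) = true := fun m n => ⟨fun ⟨_, _, h⟩ => h, fun h => ⟨trivial, trivial, h⟩⟩
  refine ⟨(VV k).comap fun n => f n, f, ?_, ⟨h2.injOn, fun n _ => h3 ▸ Set.mem_range_self n,
    fun y hy => ?_, fun m n => by simp [e]⟩, ?_⟩
  · refine ComputablePred.computable_iff.2 ⟨fun p => adjV (f p.1) (f p.2),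
      p_adjV.to_comp.comp (g := fun p : ℕ × ℕ => (f p.1, f p.2)) (by fun_prop), ?_⟩
    funext p
    rw [e]
  · obtain ⟨n, hn⟩ : y ∈ Set.range f := h3 ▸ hy
    exact ⟨n, trivial, hn⟩
  · exact (Sig.ofDec (p := fun p : ℕ × Y k => f p.1 = p.2) (by fun_prop)).of_eq fun p => by simp

theorem PD.pull {G : SimpleGraph D} {G' : SimpleGraph D'} (h : PD D' (rel G') ε ψ')
    (f : G ≃g G') : ∃ ψ, PD D (rel G) ε ψ ∧ ∀ x : D, ψ x = ψ' (f x) := by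
  classical
  obtain ⟨ψ, e⟩ : ∃ ψ : ℕ → Y k, ∀ x : D, ψ x = ψ' (f x) :=
    ⟨fun n => if hn : n ∈ D then ψ' (f ⟨n, hn⟩) else ctr, fun x => dif_pos x.2⟩
  refine ⟨ψ, ⟨fun m hm n hn H => ?_, fun n hn => ?_, fun y hy => ?_, fun m n => ⟨?_, ?_⟩⟩, e⟩
  · rw [e ⟨m, hm⟩, e ⟨n, hn⟩] at H
    exact congrArg Subtype.val (f.injective (Subtype.ext (h.inj (f _).2 (f _).2 H)))
  · rw [e ⟨n, hn⟩]
    exact h.mem _ (f _).2
  · obtain ⟨n, hn, rfl⟩ := h.surj y hy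
    exact ⟨_, (f.symm ⟨n, hn⟩).2, by rw [e, f.apply_symm_apply]⟩
  · rintro ⟨hm, hn, H⟩
    refine ⟨hm, hn, ?_⟩
    rw [e ⟨m, hm⟩, e ⟨n, hn⟩, ← h.adj', f.map_adj_iff]
    exact H
  · rintro ⟨hm, hn, H⟩
    rw [e ⟨m, hm⟩, e ⟨n, hn⟩, ← h.adj', f.map_adj_iff] at H
    exact ⟨hm, hn, H⟩

theorem Gr.pull (g : Gr D' ψ') (hD : ComputablePred fun n => n ∈ D) {f : D → D'} {φ : ℕ →. ℕ}
    (hφ : Partrec φ) (hf : ∀ x : D, (f x : ℕ) ∈ φ x) (e : ∀ x : D, ψ x = ψ' (f x)) : Gr D ψ := by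
  obtain ⟨c, hc⟩ := Nat.Partrec.Code.exists_code.1 (Partrec.nat_iff.1 hφ)
  have hp : Primrec fun w : (ℕ × ℕ) × ℕ => Nat.Partrec.Code.evaln w.2 c w.1.1 :=
    Nat.Partrec.Code.primrec_evaln.comp (g := fun w : (ℕ × ℕ) × ℕ => ((w.2, c), w.1.1))
      (by fun_prop)
  have s1 : Sig fun p : ℕ × ℕ => p.2 ∈ φ p.1 :=
    (Sig.ex (p := fun w : (ℕ × ℕ) × ℕ => Nat.Partrec.Code.evaln w.2 c w.1.1 = some w.1.2)
      (Sig.ofDec (by fun_prop))).of_eq fun p => by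
      rw [← hc, Nat.Partrec.Code.evaln_complete]
      rfl
  have s2 : Sig fun w : (ℕ × Y k) × ℕ => w.1.1 ∈ D ∧ w.2 ∈ φ w.1.1 ∧ w.2 ∈ D' ∧ ψ' w.2 = w.1.2 :=
    ((Sig.ofPred hD).comp (by fun_prop)).and
      ((s1.comp (f := fun w : (ℕ × Y k) × ℕ => (w.1.1, w.2)) (by fun_prop)).and
        (g.comp (f := fun w : (ℕ × Y k) × ℕ => (w.2, w.1.2)) (by fun_prop)))
  refine s2.ex.of_eq fun ⟨n, y⟩ => ⟨?_, ?_⟩
  · rintro ⟨m, hn, h1, -, h3⟩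
    refine ⟨hn, (e ⟨n, hn⟩).trans ?_⟩
    rw [Part.mem_unique (hf ⟨n, hn⟩) h1]
    exact h3
  · rintro ⟨hn, hy⟩
    exact ⟨_, hn, hf ⟨n, hn⟩, (f _).2, (e ⟨n, hn⟩).symm.trans hy⟩

theorem PD.iso {G : SimpleGraph D} {G' : SimpleGraph D'} (h : PD D (rel G) ε ψ)
    (h' : PD D' (rel G') ε ψ') : ∃ f : G ≃g G', ∀ x, ψ' (f x) = ψ x := by
  choose f f1 f2 using fun x : D => h'.surj _ (h.mem x x.2)
  choose g g1 g2 using fun x : D' => h.surj _ (h'.mem x x.2)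
  refine ⟨⟨⟨fun x => ⟨f x, f1 x⟩, fun x => ⟨g x, g1 x⟩,
    fun x => Subtype.ext (h.inj (g1 _) x.2 (by rw [g2, f2])),
    fun x => Subtype.ext (h'.inj (f1 _) x.2 (by rw [f2, g2]))⟩, ?_⟩, f2⟩
  intro x y
  simp only [Equiv.coe_fn_mk]
  rw [h'.adj', f2, f2, h.adj']

theorem PD.ciso {G : SimpleGraph D} {G' : SimpleGraph D'} (h : PD D (rel G) ε ψ)
    (h' : PD D' (rel G') ε ψ') (g : Gr D ψ) (g' : Gr D' ψ') :
    ∃ (f : G ≃g G') (φ : ℕ →. ℕ), Partrec φ ∧ ∀ x : D, (f x : ℕ) ∈ φ x := by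
  obtain ⟨f, hf⟩ := h.iso h'
  have s : Sig fun w : (ℕ × ℕ) × Y k => (w.1.1 ∈ D ∧ ψ w.1.1 = w.2) ∧ w.1.2 ∈ D' ∧ ψ' w.1.2 = w.2 :=
    (g.comp (f := fun w : (ℕ × ℕ) × Y k => (w.1.1, w.2)) (by fun_prop)).and
      (g'.comp (f := fun w : (ℕ × ℕ) × Y k => (w.1.2, w.2)) (by fun_prop))
  obtain ⟨φ, h1, h2⟩ := Sig.unif
    (R := fun m n : ℕ => ∃ y, (m ∈ D ∧ ψ m = y) ∧ n ∈ D' ∧ ψ' n = y) s.ex
  refine ⟨f, φ, h1, fun x => ?_⟩
  obtain ⟨n, hn⟩ := Part.dom_iff_mem.1 ((h2 x).2 ⟨f x, _, ⟨x.2, rfl⟩, (f x).2, hf x⟩)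
  obtain ⟨y, ⟨-, rfl⟩, h3, h4⟩ := (h2 x).1 n hn
  rwa [h'.inj (f x).2 h3 ((hf x).trans h4.symm)]

theorem PD.conn {G : SimpleGraph D} (h : PD D (rel G) ε ψ) : G.Connected := by
  obtain ⟨c, hc, ec⟩ := h.surj ctr ctr_mem
  have hall : ∀ x : D, G.Reachable ⟨c, hc⟩ x := fun ⟨n, hn⟩ => by
    rcases hy : ψ n with ⟨⟨⟩⟩ | ⟨i, x⟩
    · obtain rfl : n = c := h.inj hn hc (hy.trans ec.symm)
      rfl
    · obtain ⟨r, hr, er⟩ := h.surj (vx i (T [] false 0)) ((down_LL _).zero _ _)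
      have H := (h.part hc ec ⟨hr, _, er⟩ n).2 ⟨hn, x, hy⟩
      clear hy
      induction H with
      | refl => exact ((h.adj' ⟨c, hc⟩ ⟨r, hr⟩).2 (by rw [ec, er, adjV_cv]; rfl)).reachable
      | tail _ hmn ih =>
        obtain ⟨⟨h1, h2, H⟩, -⟩ := hmn
        exact (ih h1).trans H.reachable
  have : Nonempty D := ⟨⟨c, hc⟩⟩
  exact ⟨fun x y => (hall x).symm.trans (hall y)⟩

theorem PD.nbr {G : SimpleGraph D} (h : PD D (rel G) ε ψ) (hk : 1 ≤ k) (v : D) :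
    (G.neighborSet v).encard ≤ (7 * k : ℕ) := by
  refine le_trans (le_of_eq ?_) (h.deg_le hk v.2)
  rw [← Subtype.val_injective.encard_image]
  congr 1
  ext m
  exact ⟨fun ⟨y, hy, e⟩ => e ▸ rel_iff.2 hy, fun ⟨_, h2, H⟩ => ⟨⟨m, h2⟩, H, rfl⟩⟩

theorem cnt_le (ε : Fin k → Bool) : cnt ε < k + 1 :=
  Nat.lt_succ_of_le ((Finset.card_filter_le _ _).trans (by simp))

theorem exists_cnt {j : ℕ} (hj : j < k + 1) : ∃ ε : Fin k → Bool, cnt ε = j := by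
  obtain ⟨s, -, hs⟩ := Finset.exists_subset_card_eq (s := (Finset.univ : Finset (Fin k))) (n := j)
    (by simpa using Nat.le_of_lt_succ hj)
  exact ⟨fun i => decide (i ∈ s), by simpa [cnt] using hs⟩

end Pool.Agent.P.MP_d6faff_lc
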