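import Pool.Agent.P.MP_d6faff_lc.Main

/-! The join of `k` copies of the basic graph at a central vertex. -/

set_option autoImplicit false

namespace Pool.Agent.P.MP_d6faff_lc

open Relation

abbrev Y (k : ℕ) := Unit ⊕ (Fin k × X)

variable {k : ℕ}

instance decX : DecidableEq X := inferInstance

instance decY : DecidableEq (Y k) := inferInstance

@[match_pattern] abbrev ctr : Y k := Sum.inl ()
@[match_pattern] abbrev vx (i : Fin k) (x : X) : Y k := Sum.inr (i, x)

/-- the site of a vertex -/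
def st (x : X) : Site := Sum.elim (fun p => p.1) (fun q => q.1) x

/-- the second coordinate -/
def xo (y : Y k) : X := Sum.elim (fun _ => C [] false false) (fun p => p.2) y

def adjV (y w : Y k) : Bool :=
  Sum.elim (fun _ => Sum.elim (fun _ => false) (fun q => decide (st q.2 = [])) w)
    (fun p => Sum.elim (fun _ => decide (st p.2 = []))
      (fun q => decide (p.1 = q.1) && adjB p.2 q.2) w) y

theorem p_adjV : Primrec fun p : Y k × Y k => adjV p.1 p.2 := by
  have : Primrec st := by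
    unfold st
    fun_prop
  unfold adjV
  fun_prop

@[simp] theorem adjV_cc : adjV (k := k) ctr ctr = false := rfl

@[simp] theorem adjV_cv {i : Fin k} {x : X} : adjV ctr (vx i x) = true ↔ st x = [] := by
  simp [adjV]

@[simp] theorem adjV_vc {i : Fin k} {x : X} : adjV (vx i x) ctr = true ↔ st x = [] := by
  simp [adjV]

@[simp] theorem adjV_vv {i j : Fin k} {x y : X} :
    adjV (vx i x) (vx j y) = true ↔ i = j ∧ U.Adj x y := by
  simp [adjV, adjB_iff]

/-- the joined graph -/
def VV (k : ℕ) : SimpleGraph (Y k) where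
  Adj y w := adjV y w = true
  symm := ⟨by
    rintro (⟨⟨⟩⟩ | ⟨i, x⟩) (⟨⟨⟩⟩ | ⟨j, y⟩) h
    · exact h
    · simpa using h
    · simpa using h
    · rw [adjV_vv] at h ⊢
      exact ⟨h.1.symm, h.2.symm⟩⟩
  loopless := ⟨by
    rintro (⟨⟨⟩⟩ | ⟨i, x⟩) h
    · simp at h
    · simp at h⟩

/-- the vertices present when the `i`-th part is the copy number `ε i` -/
def DD (ε : Fin k → Bool) : Set (Y k) :=
  {y | Sum.elim (fun _ => True) (fun p => p.2 ∈ Dom (LL (ε p.1))) y}

@[simp] theorem ctr_mem {ε : Fin k → Bool} : ctr ∈ DD ε := trivial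

@[simp] theorem vx_mem {ε : Fin k → Bool} {i : Fin k} {x : X} :
    vx i x ∈ DD ε ↔ x ∈ Dom (LL (ε i)) := Iff.rfl

theorem Sig.exFin {α : Type} [Primcodable α] {p : Fin k → α → Prop} (h : ∀ i, Sig (p i)) :
    Sig fun a => ∃ i, p i a := by
  induction k with
  | zero => exact (Sig.ofBool (Computable.const false)).of_eq fun a => by simp
  | succ k ih =>
    exact ((h 0).or (ih fun i => h i.succ)).of_eq fun a => by rw [Fin.exists_fin_succ]

theorem sig_DD (ε : Fin k → Bool) : Sig fun y : Y k => y ∈ DD ε := by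
  have h1 : Sig fun y : Y k => y = ctr := Sig.ofDec (by fun_prop)
  have h2 : ∀ i : Fin k, Sig fun y : Y k => ∃ x : X, y = vx i x ∧ x ∈ Dom (LL (ε i)) := fun i =>
    Sig.ex (p := fun w : Y k × X => w.1 = vx i w.2 ∧ w.2 ∈ Dom (LL (ε i)))
      ((Sig.ofDec (by fun_prop)).and ((sig_dom _).comp (by fun_prop)))
  refine (h1.or (Sig.exFin h2)).of_eq ?_
  rintro (⟨⟨⟩⟩ | ⟨i, x⟩)
  · exact ⟨fun _ => trivial, fun _ => Or.inl rfl⟩
  · refine ⟨?_, fun h => Or.inr ⟨i, x, rfl, h⟩⟩
    rintro (h | ⟨j, y, h, hy⟩)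
    · exact absurd h (by simp)
    · rw [h]
      exact hy

theorem Sig.rtg {R : ℕ → ℕ → Prop} (h : Sig fun p : ℕ × ℕ => R p.1 p.2) (r : ℕ) :
    Sig fun n => ReflTransGen R r n := by
  have h1 : Sig fun y : (List ℕ × ℕ) × ℕ => R (y.1.1.getD y.2 0) (y.1.1.getD (y.2 + 1) 0) :=
    h.comp (f := fun y : (List ℕ × ℕ) × ℕ => (y.1.1.getD y.2 0, y.1.1.getD (y.2 + 1) 0))
      (by fun_prop)
  have h2 := h1.ball (f := fun y : List ℕ × ℕ => y.2) (by fun_prop)
  have h3 : Sig fun y : ℕ × (List ℕ × ℕ) =>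
      (decide (y.2.1.getD 0 0 = r) && decide (y.2.1.getD y.2.2 0 = y.1)) = true :=
    Sig.ofBool (by fun_prop)
  refine (Sig.ex (h3.and (h2.comp (f := fun y : ℕ × (List ℕ × ℕ) => y.2) (by fun_prop)))).of_eq
    fun n => ?_
  simp only [Bool.and_eq_true, decide_eq_true_eq]
  constructor
  · rintro ⟨⟨l, m⟩, ⟨h0, hm⟩, H⟩
    dsimp only at h0 hm H
    have key : ∀ j, j ≤ m → ReflTransGen R r (l.getD j 0) := fun j => by
      induction j with
      | zero => exact fun _ => h0 ▸ ReflTransGen.refl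
      | succ j ih => exact fun hj => (ih (by omega)).tail (H j hj)
    exact hm ▸ key m le_rfl
  · intro hn
    have : ∃ (m : ℕ) (v : ℕ → ℕ), v 0 = r ∧ v m = n ∧ ∀ j < m, R (v j) (v (j + 1)) := by
      induction hn with
      | refl => exact ⟨0, fun _ => r, rfl, rfl, fun j hj => absurd hj (by omega)⟩
      | @tail b c _ hbc ih =>
        obtain ⟨m, v, h0, hm, H⟩ := ih
        refine ⟨m + 1, fun j => if j ≤ m then v j else c, by simpa using h0, by simp,
          fun j hj => ?_⟩
        rcases Nat.lt_succ_iff_lt_or_eq.1 hj with hj | rfl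
        · simpa [hj.le, Nat.succ_le_of_lt hj] using H j hj
        · simpa [hm] using hbc
    obtain ⟨m, v, h0, hm, H⟩ := this
    have hg : ∀ j, j ≤ m → ((List.range (m + 1)).map v).getD j 0 = v j := fun j hj => by
      rw [List.getD_eq_getElem _ _ (by simp; omega)]
      simp
    refine ⟨((List.range (m + 1)).map v, m), ⟨by rw [hg 0 (by omega), h0], by rw [hg m le_rfl, hm]⟩,
      fun j hj => ?_⟩
    dsimp only at hj ⊢
    rw [hg j hj.le, hg (j + 1) hj]
    exact H j hj

/-! ### degrees -/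

/-- the neighbours that are present -/
def NB (ε : Fin k → Bool) (y : Y k) : Set (Y k) := {w | w ∈ DD ε ∧ adjV y w = true}

theorem encard_le_of_list {α : Type} {S : Set α} {l : List α} (h : ∀ a ∈ S, a ∈ l) :
    S.encard ≤ l.length := by
  classical
  have : S ⊆ (l.toFinset : Set α) := fun a ha => by simpa using h a ha
  refine (Set.encard_le_encard this).trans ?_
  rw [Set.encard_coe_eq_coe_finsetCard]
  exact_mod_cast l.toFinset_card_le

theorem deg_vx (ε : Fin k → Bool) (i : Fin k) (x : X) : (NB ε (vx i x)).encard ≤ 6 := by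
  have key : ∀ l : List X, (∀ y, U.Adj x y → y ∈ l) → (l.length ≤ 5 ∨ (l.length ≤ 6 ∧ st x ≠ [])) →
      (NB ε (vx i x)).encard ≤ 6 := by
    rintro l h (hl | ⟨hl, hx⟩)
    · refine (encard_le_of_list (l := ctr :: l.map (vx i)) ?_).trans ?_
      · rintro (⟨⟨⟩⟩ | ⟨j, y⟩) ⟨-, hw⟩
        · simp
        · obtain ⟨rfl, hw'⟩ := adjV_vv.1 hw
          simpa using h y hw'
      · simp only [List.length_cons, List.length_map]
        exact_mod_cast (by omega : l.length + 1 ≤ 6)
    · refine (encard_le_of_list (l := l.map (vx i)) ?_).trans ?_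
      · rintro (⟨⟨⟩⟩ | ⟨j, y⟩) ⟨-, hw⟩
        · exact absurd (adjV_vc.1 hw) hx
        · obtain ⟨rfl, hw'⟩ := adjV_vv.1 hw
          simpa using h y hw'
      · simp only [List.length_map]
        exact_mod_cast hl
  rcases x with ⟨_ | ⟨_ | _, σ⟩, b, _ | m⟩ | ⟨σ, i', j⟩
  · exact key [T [] b 1, C [] false b, C [] true (!b)] (fun y hy => by simpa [adj_T0] using hy)
      (by simp)
  · exact key [T [] b m, T [] b (m + 2)] (fun y hy => by simpa [adj_TS] using hy) (by simp)
  · exact key [T (false :: σ) b 1, C (false :: σ) false b, C (false :: σ) true (!b), C σ b false,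
      C σ b true, T (false :: σ) (!b) 0] (fun y hy => by simpa [adj_T0] using hy) (by simp [st])
  · exact key [T (false :: σ) b m, T (false :: σ) b (m + 2)]
      (fun y hy => by simpa [adj_TS] using hy) (by simp)
  · exact key [T (true :: σ) b 1, C (true :: σ) false b, C (true :: σ) true (!b), C σ false b,
      C σ true b] (fun y hy => by simpa [adj_T0] using hy) (by simp)
  · exact key [T (true :: σ) b m, T (true :: σ) b (m + 2)]
      (fun y hy => by simpa [adj_TS] using hy) (by simp)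
  · exact key [T σ (xor i' j) 0, T (false :: σ) i' 0, T (true :: σ) j 0, C σ (!i') (!j)]
      (fun y hy => by simpa [adj_C] using hy) (by simp)

/-- the seven vertices at the top of a copy -/
def top (e : Bool) : Fin 7 → X :=
  ![T [] false 0, T [] true 0, T [] (!e) 1, C [] false false, C [] false true, C [] true false,
    C [] true true]

theorem top_inj (e : Bool) : Function.Injective (top e) := by
  cases e <;> decide

theorem top_iff {e : Bool} {x : X} : (x ∈ Dom (LL e) ∧ st x = []) ↔ ∃ t, top e t = x := by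
  constructor
  · rintro ⟨h1, h2⟩
    rcases x with ⟨σ, b, m⟩ | ⟨σ, i, j⟩
    · obtain rfl : σ = [] := h2
      simp only [T_mem_Dom, LL, true_and, ne_eq, not_true_eq_false, false_and, or_false] at h1
      rcases m with _ | _ | m
      · cases b
        · exact ⟨0, rfl⟩
        · exact ⟨1, rfl⟩
      · refine ⟨2, ?_⟩
        cases b <;> cases e <;> first | rfl | simp at h1
      · cases b <;> cases e <;> simp at h1
    · obtain rfl : σ = [] := h2
      cases i <;> cases j
      · exact ⟨3, rfl⟩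
      · exact ⟨4, rfl⟩
      · exact ⟨5, rfl⟩
      · exact ⟨6, rfl⟩
  · rintro ⟨t, rfl⟩
    fin_cases t <;> cases e <;> simp [top, st, LL]

theorem deg_ctr (ε : Fin k → Bool) : (NB ε ctr).encard = (7 * k : ℕ) := by
  have e : NB ε ctr = (fun p : Fin k × Fin 7 => vx p.1 (top (ε p.1) p.2)) '' Set.univ := by
    ext (⟨⟨⟩⟩ | ⟨i, x⟩)
    · simp [NB]
    · simp only [NB, Set.mem_ofPred_eq, vx_mem, adjV_cv, top_iff, Set.image_univ, Set.mem_range,
        Sum.inr.injEq, Prod.mk.injEq, Prod.exists]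
      constructor
      · rintro ⟨t, rfl⟩
        exact ⟨i, t, rfl, rfl⟩
      · rintro ⟨j, t, rfl, rfl⟩
        exact ⟨t, rfl⟩
  rw [e, Function.Injective.encard_image, Set.encard_univ]
  · simp [mul_comm]
  · rintro ⟨i, s⟩ ⟨j, t⟩ h
    simp only [Sum.inr.injEq, Prod.mk.injEq] at h
    obtain ⟨rfl, h⟩ := h
    rw [top_inj _ h]

theorem st_iff {e : Bool} {x : X} (hx : x ∈ Dom (LL e)) : st x = [] ↔
    Root U (Dom (LL e)) x ∨ ∃ r ∈ Dom (LL e), Root U (Dom (LL e)) r ∧ U.Adj r x := by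
  simp only [root_iff (down_LL e)]
  constructor
  · intro h
    obtain ⟨t, rfl⟩ := top_iff.1 ⟨hx, h⟩
    have z := (down_LL e).zero []
    fin_cases t
    · exact Or.inl ⟨_, rfl⟩
    · exact Or.inl ⟨_, rfl⟩
    · exact Or.inr ⟨_, z (!e), ⟨_, rfl⟩, adj_T0.2 (Or.inl rfl)⟩
    · exact Or.inr ⟨_, z false, ⟨_, rfl⟩, adj_T0.2 (by simp [top])⟩
    · exact Or.inr ⟨_, z true, ⟨_, rfl⟩, adj_T0.2 (by simp [top])⟩
    · exact Or.inr ⟨_, z true, ⟨_, rfl⟩, adj_T0.2 (by simp [top])⟩
    · exact Or.inr ⟨_, z false, ⟨_, rfl⟩, adj_T0.2 (by simp [top])⟩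
  · rintro (⟨b, rfl⟩ | ⟨r, -, ⟨b, rfl⟩, h⟩)
    · rfl
    · simp only [adj_T0, reduceCtorEq, false_and, exists_false, or_false] at h
      rcases h with rfl | rfl | rfl <;> rfl

theorem Pres.st_eq {K : SimpleGraph ℕ} {e e' : Bool} {χ χ' : ℕ → X} (h : Pres K (Dom (LL e)) χ)
    (h' : Pres K (Dom (LL e')) χ') (n : ℕ) : st (χ n) = [] ↔ st (χ' n) = [] := by
  have key : ∀ {e : Bool} {χ : ℕ → X}, Pres K (Dom (LL e)) χ → (st (χ n) = [] ↔
      Root K Set.univ n ∨ ∃ r, Root K Set.univ r ∧ K.Adj r n) := fun {e χ} h => by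
    rw [st_iff (h.mem n), ← h.root]
    refine or_congr Iff.rfl ⟨?_, ?_⟩
    · rintro ⟨r, hr, h1, h2⟩
      obtain ⟨m, rfl⟩ := h.surj hr
      exact ⟨m, h.root.2 h1, (h.adj _ _).2 h2⟩
    · rintro ⟨m, h1, h2⟩
      exact ⟨_, h.mem m, h.root.1 h1, (h.adj _ _).1 h2⟩
  rw [key h, key h']

end Pool.Agent.P.MP_d6faff_lc
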